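import Pool.Agent.Y163.MW.Asm

/-!
# The monodromy-weight conjecture and the poles of the local L-factors: definitions
-/

set_option autoImplicit false

open Module TensorProduct

universe u v w

namespace Pool.Agent.L7h94.MWC

open Pool.Agent.H914 Pool.Agent.Y143 Pool.Agent.Y163.MW

section

variable {K : Type u} [Field K]

/-- The product `X × E × ... × E` of `X` and `b` copies of `E`. -/
noncomputable def times (X E : SmVar.{u} K) : ℕ → SmVar.{u} K
  | 0 => X
  | b + 1 => (times X E b).prod E

variable {Ω : Type w} [Field Ω] [CharZero Ω]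

/-- `x` is an eigenvector of the geometric Frobenius `F` in `H^j` for the eigenvalue `α`. -/
def IsEig (R : Coh.{v, w} Ω) (j : ℕ) (α : Ω) (x : R.V) : Prop :=
  x ∈ R.gr j ∧ x ≠ 0 ∧ R.F x = α • x

/-- `x` is an eigenvector of the geometric Frobenius `F` in `H^j` for the eigenvalue `α`, and
`N x = 0`. -/
def IsInv (R : Coh.{v, w} Ω) (j : ℕ) (α : Ω) (x : R.V) : Prop := IsEig R j α x ∧ R.N x = 0

/-- `q ^ n` is not an eigenvalue of the geometric Frobenius `F` on the kernel of `N` on `H^j(Z)`
(the invariants of an open subgroup of the inertia group): the local L-factor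
`det (1 - F q ^ (-s) | H^j(Z)^I)^(-1)` has no pole at `s = n`. -/
def NoPole (T : Theory.{u, v, w} K Ω) (q : ℕ) (Z : SmVar.{u} K) (j n : ℕ) : Prop :=
  ∀ x, ¬ IsInv (T.H Z) j ((q : Ω) ^ n) x

/-- There is no nonzero `x` in `H^j` with `N x = 0` and `F ^ r x = q ^ (n r) x` for some
`r ≥ 1`. -/
def IsEmptyInv (R : Coh.{v, w} Ω) (q j n : ℕ) : Prop :=
  ∀ r : ℕ, 1 ≤ r → ∀ x ∈ R.gr j, R.N x = 0 → (R.F ^ r) x = (q : Ω) ^ (n * r) • x → x = 0

/-- The Galois groups of finite extensions of `K` have no nonzero invariants on `H^j(Z)(n)`: there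
is no nonzero `x` in `H^j(Z)` with `N x = 0` and `F ^ r x = q ^ (n r) x` for some `r ≥ 1`. -/
def NoInvariants (T : Theory.{u, v, w} K Ω) (q : ℕ) (Z : SmVar.{u} K) (j n : ℕ) : Prop :=
  IsEmptyInv (T.H Z) q j n

/-- The known properties of the cohomology of a Tate curve: there are invariant classes in `H^0` and
`H^2(1)`, there is `e` in `H^1` with `F e = q e` such that `N e` is not zero and invariant, and the
monodromy-weight conjecture is true. -/
structure IsTate (R : Coh.{v, w} Ω) (q : ℕ) : Prop where
  unit : ∃ e, IsInv R 0 1 e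
  point : ∃ e, IsInv R 2 (q : Ω) e
  mono : ∃ e, IsEig R 1 (q : Ω) e ∧ IsInv R 1 1 (R.N e)
  pure : ∀ m, R.MWPure q m

/-- `E` is a curve with the cohomology of a Tate curve (an elliptic curve with split multiplicative
reduction). -/
structure IsTateCurve (T : Theory.{u, v, w} K Ω) (q : ℕ) (E : SmVar.{u} K) : Prop where
  dim : E.dim = 1
  coh : IsTate (T.H E) q

/-- The cohomology of a variety with potentially good reduction: `N = 0`, and the eigenvalues of `F`
on `H^m` are `q`-Weil numbers of weight `m`. -/
structure IsPotGood (R : Coh.{v, w} Ω) (q : ℕ) : Prop where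
  zero : ∀ x, R.N x = 0
  weil : ∀ (m : ℕ) (α : Ω) (x : R.V), IsEig R m α x → IsWeilNumber q m α

/-- `𝒢` is a set of varieties with potentially good reduction such that for each eigenvalue `α` of
`F` on the cohomology of a smooth proper variety some `q ^ n / α` is an eigenvalue of `F` on the
cohomology of an element of `𝒢`. By the theorem of Honda and Tate (and the existence of liftings
with complex multiplication) the abelian varieties over `K` with potentially good reduction have
this property. -/
structure IsHondaTate (T : Theory.{u, v, w} K Ω) (q : ℕ) (𝒢 : Set (SmVar.{u} K)) : Prop where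
  good : ∀ A ∈ 𝒢, IsPotGood (T.H A) q
  inverse : ∀ (Z : SmVar.{u} K) (j : ℕ) (α : Ω) (x : (T.H Z).V), IsEig (T.H Z) j α x →
    ∃ A ∈ 𝒢, ∃ (i n : ℕ) (β : Ω) (y : (T.H A).V), IsEig (T.H A) i β y ∧ α * β = (q : Ω) ^ n

end

end Pool.Agent.L7h94.MWC
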