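import Pool.Agent.L7h94.MWC.Pos

/-!
# The monodromy-weight conjecture and the poles of the local L-factors
-/

set_option autoImplicit false

open Module TensorProduct

universe u v w

namespace Pool.Agent.L7h94.MWC

open Pool.Agent.H914 Pool.Agent.Y143 Pool.Agent.Y163.MW

section

variable {K : Type u} [Field K] {Ω : Type w} [Field Ω] [CharZero Ω] [IsAlgClosed Ω]
  {T : Theory.{u, v, w} K Ω} {q : ℕ}

lemma mw_prod (hq : 1 < q) (hT : T.IsLocal q) {X Y : SmVar.{u} K} (hX : ∀ m, (T.H X).MWPure q m)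
    (hY : ∀ m, (T.H Y).MWPure q m) : ∀ m, (T.H (X.prod Y)).MWPure q m := by
  obtain ⟨κ, hκ⟩ := hT.kunneth X Y
  exact mw_kunneth hq (hT.coh X) (hT.coh Y) (hT.coh _) hκ hX hY

lemma mw_pow (hq : 1 < q) (hT : T.IsLocal q) {X : SmVar.{u} K} (hX : ∀ m, (T.H X).MWPure q m)
    (c : ℕ) : ∀ m, (T.H (pow X c)).MWPure q m := by
  induction c with
  | zero => exact hX
  | succ c ih => exact mw_prod hq hT hX ih

lemma mw_times (hq : 1 < q) (hT : T.IsLocal q) {X E : SmVar.{u} K}
    (hX : ∀ m, (T.H X).MWPure q m) (hE : ∀ m, (T.H E).MWPure q m) (b : ℕ) :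
    ∀ m, (T.H (times X E b)).MWPure q m := by
  induction b with
  | zero => exact hX
  | succ b ih => exact mw_prod hq hT ih hE

lemma dim_times (X E : SmVar.{u} K) (hE : E.dim = 1) (b : ℕ) :
    (times X E b).dim = X.dim + b := by
  induction b with
  | zero => rfl
  | succ b ih =>
    change (times X E b).dim + E.dim = _
    rw [ih, hE]
    ring

/-- Strings in the powers of `X`. -/
lemma string_powX (hq : 1 < q) (hT : T.IsLocal q) {X : SmVar.{u} K} {e : ℤ} {k : ℕ}
    (h : HasString (T.H X) q e k) (c : ℕ) :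
    HasString (T.H (pow X c)) q (((c : ℤ) + 1) * e) ((c + 1) * k) := by
  induction c with
  | zero =>
    have h' : HasString (T.H (pow X 0)) q e k := h
    simpa using h'
  | succ c ih =>
    obtain ⟨κ, hκ⟩ := hT.kunneth X (pow X c)
    have h1 : HasString (T.H (pow X (c + 1))) q (e + ((c : ℤ) + 1) * e) (k + (c + 1) * k) :=
      h.mul (by omega) hκ ih
    rw [show (((c + 1 : ℕ) : ℤ) + 1) * e = e + ((c : ℤ) + 1) * e by push_cast; ring,
      show (c + 1 + 1) * k = k + (c + 1) * k by ring]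
    exact h1

/-- The string of the Tate curve. -/
lemma tate_tot (hq : 1 < q) {E : SmVar.{u} K} (hE : IsTateCurve T q E) :
    ∃ u ∈ (T.H E).tot q 1, (T.H E).N u ≠ 0 ∧ (T.H E).N ((T.H E).N u) = 0 := by
  obtain ⟨u, ⟨hu, -, h3⟩, ⟨-, h1, -⟩, h2⟩ := hE.coh.mono
  refine ⟨u, ?_, h1, h2⟩
  have hw := weil_natPow (Ω := Ω) (by omega : 0 < q) 1
  rw [pow_one] at hw
  have h4 := mem_exc hu h3 hw
  exact Coh.exc_le_tot 1 _ (by simpa using h4)

lemma string_tate (hq : 1 < q) {E : SmVar.{u} K} (hE : IsTateCurve T q E) :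
    HasString (T.H E) q 0 1 := by
  obtain ⟨u, hu, h1, h2⟩ := tate_tot hq hE
  refine ⟨u, by simpa using hu, by simpa using h1, ?_⟩
  rw [pow_succ, pow_one, Module.End.mul_apply]
  exact h2

lemma string_up (hq : 1 < q) (hT : T.IsLocal q) {X E : SmVar.{u} K} (hE : IsTateCurve T q E)
    {e : ℤ} {s : ℕ} (h : HasString (T.H X) q e s) (n : ℕ) :
    HasString (T.H (times X E n)) q e (s + n) := by
  induction n with
  | zero => exact h
  | succ n ih =>
    obtain ⟨κ, hκ⟩ := hT.kunneth (times X E n) E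
    have h1 := ih.mul (by omega) hκ (string_tate hq hE)
    rw [add_zero, add_assoc] at h1
    exact h1

lemma string_down (hq : 1 < q) (hT : T.IsLocal q) {X E : SmVar.{u} K} (hE : IsTateCurve T q E)
    {e : ℤ} (n : ℕ) {s : ℕ} (h : HasString (T.H X) q e (s + n)) :
    HasString (T.H (times X E n)) q e s := by
  induction n generalizing s with
  | zero => exact h
  | succ n ih =>
    obtain ⟨κ, hκ⟩ := hT.kunneth (times X E n) E
    obtain ⟨u, hu, h1, h2⟩ := tate_tot hq hE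
    have h3 : HasString (T.H (times X E n)) q e (s + 1) :=
      ih (by rwa [add_assoc, add_comm 1 n])
    exact h3.down hq (hT.coh _) (hT.coh _) hκ hu h1 h2

/-- All lengths of strings can be reached. -/
lemma string_reach (hq : 1 < q) (hT : T.IsLocal q) {X E : SmVar.{u} K} (hE : IsTateCurve T q E)
    {e : ℤ} {s : ℕ} (h : HasString (T.H X) q e s) (s' : ℕ) :
    ∃ b, HasString (T.H (times X E b)) q e s' := by
  rcases le_total s s' with h1 | h1
  · obtain ⟨n, rfl⟩ := Nat.exists_eq_add_of_le h1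
    exact ⟨n, string_up hq hT hE h n⟩
  · obtain ⟨n, rfl⟩ := Nat.exists_eq_add_of_le h1
    exact ⟨n, string_down hq hT hE n h⟩

/-- `H^j(Z)` contains an eigenvector of `F` for `α` which is killed by `N`. -/
def HasEigen (T : Theory.{u, v, w} K Ω) (Z : SmVar.{u} K) (j : ℕ) (α : Ω) : Prop :=
  ∃ x, IsInv (T.H Z) j α x

lemma HasEigen.mul (hT : T.IsLocal q) {Z Z' : SmVar.{u} K} {j j' : ℕ} {α α' : Ω}
    (h : HasEigen T Z j α) (h' : HasEigen T Z' j' α') :
    HasEigen T (Z.prod Z') (j + j') (α * α') := by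
  obtain ⟨κ, hκ⟩ := hT.kunneth Z Z'
  obtain ⟨x, ⟨hx, hx0, hxF⟩, hxN⟩ := h
  obtain ⟨y, ⟨hy, hy0, hyF⟩, hyN⟩ := h'
  refine ⟨κ (x ⊗ₜ y), ⟨hκ.degree j j' x y hx hy, ?_, ?_⟩, ?_⟩
  · intro h0
    exact tmul_ne_zero hx0 hy0 ((map_eq_zero_iff κ κ.injective).1 h0)
  · rw [F_kappa hκ, hxF, hyF, TensorProduct.smul_tmul_smul, map_smul]
  · rw [N_kappa hκ, DD, LinearMap.add_apply, LinearMap.rTensor_tmul, LinearMap.lTensor_tmul, hxN,
      hyN, TensorProduct.zero_tmul, TensorProduct.tmul_zero, add_zero, map_zero]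

lemma times_add (X E : SmVar.{u} K) (b c : ℕ) : times (times X E b) E c = times X E (b + c) := by
  induction c with
  | zero => rfl
  | succ c ih =>
    change (times (times X E b) E c).prod E = (times X E (b + c)).prod E
    rw [ih]

lemma eigen_unit (hT : T.IsLocal q) {Z E : SmVar.{u} K} (hE : IsTateCurve T q E) {j : ℕ} {α : Ω}
    (h : HasEigen T Z j α) (c : ℕ) : HasEigen T (times Z E c) j α := by
  induction c with
  | zero => exact h
  | succ c ih =>
    have h5 : HasEigen T E 0 1 := hE.coh.unit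
    have h6 := ih.mul hT h5
    rw [mul_one, add_zero] at h6
    exact h6

lemma eigen_point (hT : T.IsLocal q) {Z E : SmVar.{u} K} (hE : IsTateCurve T q E) {j : ℕ} {α : Ω}
    (h : HasEigen T Z j α) (c : ℕ) :
    HasEigen T (times Z E c) (j + 2 * c) (α * (q : Ω) ^ c) := by
  induction c with
  | zero =>
    have h' : HasEigen T (times Z E 0) j α := h
    simpa using h'
  | succ c ih =>
    have h5 : HasEigen T E 2 (q : Ω) := hE.coh.point
    have h6 := ih.mul hT h5
    rw [show j + 2 * c + 2 = j + 2 * (c + 1) by ring, mul_assoc, ← pow_succ] at h6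
    exact h6

/-- A pole in the middle degree. -/
lemma exists_middle (hq : 1 < q) (hT : T.IsLocal q) {E : SmVar.{u} K} (hE : IsTateCurve T q E)
    {𝒢 : Set (SmVar.{u} K)} (h𝒢 : IsHondaTate T q 𝒢) {X : SmVar.{u} K} {b j a : ℕ} {α : Ω}
    (h : HasEigen T (times X E b) j α) (hα : IsWeilNumber q (j + a) α) :
    ∃ (b' : ℕ), ∃ A ∈ 𝒢, ∃ n, ((times X E b').prod A).dim + a = 2 * n ∧
      HasEigen T ((times X E b').prod A) ((times X E b').prod A).dim ((q : Ω) ^ n) := by
  have hxX := h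
  obtain ⟨x, hx, hxN⟩ := h
  obtain ⟨A, hA, i, n, β, y, hy, hαβ⟩ := h𝒢.inverse _ j α x hx
  have hβ := (h𝒢.good A hA).weil i β y hy
  have hyA : HasEigen T A i β := ⟨y, hy, (h𝒢.good A hA).zero y⟩
  -- the weights
  have hn : j + a + i = 2 * n := by
    have h1 := weil_mul (by omega : 0 < q) hα hβ
    rw [hαβ] at h1
    have h2 := weil_unique hq h1 (weil_natPow (by omega : 0 < q) n)
    omega
  have hdim : ∀ c, ((times X E (b + c)).prod A).dim = ((times X E b).prod A).dim + c := by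
    intro c
    change (times X E (b + c)).dim + A.dim = (times X E b).dim + A.dim + c
    rw [dim_times X E hE.dim, dim_times X E hE.dim]
    ring
  rcases le_total (j + i) ((times X E b).prod A).dim with hle | hle
  · obtain ⟨c, hc⟩ := Nat.exists_eq_add_of_le hle
    refine ⟨b + c, A, hA, n + c, ?_, ?_⟩
    · rw [hdim, hc]
      omega
    · have h1 := (eigen_point hT hE hxX c).mul hT hyA
      rw [times_add, mul_right_comm, hαβ, ← pow_add] at h1
      rw [hdim, hc]
      rwa [show j + 2 * c + i = j + i + c + c by ring] at h1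
  · obtain ⟨c, hc⟩ := Nat.exists_eq_add_of_le hle
    refine ⟨b + c, A, hA, n, ?_, ?_⟩
    · rw [hdim]
      omega
    · have h1 := (eigen_unit hT hE hxX c).mul hT hyA
      rw [times_add, hαβ] at h1
      rw [hdim]
      rwa [hc] at h1

/-- The criterion for one variety. -/
theorem criterion (hq : 1 < q) (hT : T.IsLocal q) {E : SmVar.{u} K} (hE : IsTateCurve T q E)
    {𝒢 : Set (SmVar.{u} K)} (h𝒢 : IsHondaTate T q 𝒢) (c : ℕ) (X : SmVar.{u} K) :
    (∀ m, (T.H X).MWPure q m) ↔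
      ∀ (b : ℕ), ∀ A ∈ 𝒢, ∀ n, ((times (pow X c) E b).prod A).dim + (c + 1) = 2 * n →
        NoPole T q ((times (pow X c) E b).prod A) ((times (pow X c) E b).prod A).dim n := by
  constructor
  · intro h b A hA n hn x hx
    obtain ⟨⟨hx, hx0, hF⟩, hN⟩ := hx
    have h1 := mw_prod hq hT (mw_times hq hT (mw_pow hq hT h c) hE.coh.pure b)
      ((h𝒢.good A hA).pure hq (hT.coh A))
    refine hx0 (no_invariants hq (hT.coh _) h1 (n := n) (by omega) le_rfl hx hN ?_)
    rw [pow_one, mul_one]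
    exact hF
  · intro h
    by_contra hcon
    obtain ⟨e, k, hk⟩ := exists_string hq (hT.coh X) hcon
    obtain ⟨b, x, hx, hx1, hx2⟩ := string_reach hq hT hE (string_powX hq hT hk c) ((c + 1) * e)
    have h1 := pow_tot hq (hT.coh _) ((c + 1) * e) _ x hx
    rw [show ((c : ℤ) + 1) * ((e : ℤ) + 1) + (((c + 1) * e : ℕ) : ℤ) -
      2 * (((c + 1) * e : ℕ) : ℤ) = ((c + 1 : ℕ) : ℤ) by push_cast; ring] at h1
    rw [pow_succ', Module.End.mul_apply] at hx2
    obtain ⟨j, y, hy, hy0, hyN⟩ := exists_homogeneous (hT.coh _) h1 hx1 hx2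
    obtain ⟨α, z, hz, hz0, hzN, hzF, hw⟩ := exists_eigen hq (hT.coh _) hy hy0 hyN
    obtain ⟨b', A, hA, n, hn, t, ht⟩ := exists_middle hq hT hE h𝒢
      ⟨z, ⟨hz, hz0, hzF⟩, hzN⟩ hw
    exact h b' A hA n hn t ht

/-- The criterion for all varieties. -/
theorem criterion_all (hq : 1 < q) (hT : T.IsLocal q) {E : SmVar.{u} K} (hE : IsTateCurve T q E)
    {𝒢 : Set (SmVar.{u} K)} (h𝒢 : IsHondaTate T q 𝒢) (c : ℕ) :
    ((∀ (X : SmVar.{u} K) m, (T.H X).MWPure q m) ↔
      ∀ (Z : SmVar.{u} K) (n : ℕ), Z.dim + (c + 1) = 2 * n → NoPole T q Z Z.dim n) ∧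
    ((∀ (X : SmVar.{u} K) m, (T.H X).MWPure q m) ↔
      ∀ (Z : SmVar.{u} K) (j n : ℕ), j < 2 * n → NoInvariants T q Z j n) := by
  have h1 : (∀ (X : SmVar.{u} K) m, (T.H X).MWPure q m) →
      ∀ (Z : SmVar.{u} K) (j n : ℕ), j < 2 * n → NoInvariants T q Z j n :=
    fun h Z j n hjn r hr x hx hN hF => no_invariants hq (hT.coh Z) (h Z) hjn hr hx hN hF
  have h2 : (∀ (Z : SmVar.{u} K) (j n : ℕ), j < 2 * n → NoInvariants T q Z j n) →
      ∀ (Z : SmVar.{u} K) (n : ℕ), Z.dim + (c + 1) = 2 * n → NoPole T q Z Z.dim n := by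
    intro h Z n hn x hx
    obtain ⟨⟨hx, hx0, hF⟩, hN⟩ := hx
    refine hx0 (h Z Z.dim n (by omega) 1 le_rfl x hx hN ?_)
    rw [pow_one, mul_one]
    exact hF
  have h3 : (∀ (Z : SmVar.{u} K) (n : ℕ), Z.dim + (c + 1) = 2 * n → NoPole T q Z Z.dim n) →
      ∀ (X : SmVar.{u} K) m, (T.H X).MWPure q m :=
    fun h X => (criterion hq hT hE h𝒢 c X).2 fun b A _ n hn => h _ n hn
  exact ⟨⟨fun h => h2 (h1 h), h3⟩, ⟨h1, fun h => h3 (h2 h)⟩⟩

end

end Pool.Agent.L7h94.MWC
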