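import Pool.Agent.L7h94.MWC.Str

/-!
# Strings of positive mean weight; products of pure cohomologies
-/

set_option autoImplicit false

open Module TensorProduct

universe u v w

namespace Pool.Agent.L7h94.MWC

open Pool.Agent.H914 Pool.Agent.Y143 Pool.Agent.Y163.MW

section

variable {Ω : Type w} [Field Ω] [CharZero Ω] [IsAlgClosed Ω] {R R' R'' : Coh.{v, w} Ω} {q : ℕ}

lemma string_pow {V : Type v} [AddCommGroup V] [Module Ω V] {gr : ℤ → Submodule Ω V}
    {N : Module.End Ω V} (S : Strings gr N) (s : S.ι) (i : ℕ) (hi : i < S.len s + 1) :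
    (N ^ i) (S.b ⟨s, ⟨0, by omega⟩⟩) = S.b ⟨s, ⟨i, hi⟩⟩ := by
  induction i with
  | zero => simp
  | succ i ih =>
    rw [pow_succ', Module.End.mul_apply, ih (by omega)]
    exact S.succ s ⟨i, by omega⟩

lemma sum_string (l : ℕ) (t : ℤ) :
    ∑ i : Fin (l + 1), (t - 2 * (i : ℕ)) = ((l : ℤ) + 1) * (t - l) := by
  rw [Fin.sum_univ_eq_sum_range (fun i => (t - 2 * (i : ℤ))) (l + 1)]
  have h : ∀ n : ℕ, ∑ i ∈ Finset.range n, (t - 2 * (i : ℤ)) = n * (t - (n - 1)) := by
    intro n
    induction n with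
    | zero => simp
    | succ n ih =>
      rw [Finset.sum_range_succ, ih]
      push_cast
      ring
  rw [h]
  push_cast
  ring

/-- The sum of all weights is zero. -/
lemma sum_wt (hq : 1 < q) (hR : R.IsCoh q) (S : Strings (R.tot q) R.N) :
    ∑ p, S.wt p = 0 := by
  have h1 : ∑ᶠ c : ℤ, c * (finrank Ω (R.tot q c) : ℤ) = ∑ p, S.wt p := by
    rw [← finsum_card S.wt (fun c => c)]
    refine finsum_congr fun c => ?_
    rw [finrank_gr (Coh.indep_tot hq hR) S.b S.wt S.mem' c]
  have h2 : ∑ᶠ c : ℤ, c * (finrank Ω (R.tot q c) : ℤ) =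
      ∑ᶠ c : ℤ, -(c * (finrank Ω (R.tot q c) : ℤ)) := by
    rw [← finsum_comp_equiv (Equiv.neg ℤ)]
    refine finsum_congr fun c => ?_
    rw [Equiv.neg_apply, ← Coh.finrank_tot_neg hq hR c]
    ring
  rw [finsum_neg_distrib, h1] at h2
  omega

/-- If the monodromy-weight conjecture fails for `R`, there is a string of positive mean weight. -/
lemma exists_string (hq : 1 < q) (hR : R.IsCoh q) (h : ¬ ∀ m, R.MWPure q m) :
    ∃ e k : ℕ, HasString R q ((e : ℤ) + 1) k := by
  obtain ⟨S⟩ := Coh.exists_strings hq hR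
  rw [Coh.mw_iff hq hR S] at h
  have h1 : ∑ s, ((S.len s : ℤ) + 1) * (S.top s - S.len s) = 0 := by
    rw [← sum_wt hq hR S, Fintype.sum_sigma]
    refine Finset.sum_congr rfl fun s _ => ?_
    exact (sum_string (S.len s) (S.top s)).symm
  have h2 : ∃ s, 0 < S.top s - S.len s := by
    by_contra hcon
    push Not at hcon
    apply h
    have h3 : ∀ s ∈ Finset.univ, ((S.len s : ℤ) + 1) * (S.top s - S.len s) ≤ 0 := fun s _ =>
      mul_nonpos_of_nonneg_of_nonpos (by positivity) (hcon s)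
    have h4 := (Finset.sum_eq_zero_iff_of_nonpos h3).1 h1
    intro s
    have h5 := h4 s (Finset.mem_univ s)
    rcases mul_eq_zero.1 h5 with h6 | h6
    · have : (0 : ℤ) < (S.len s : ℤ) + 1 := by positivity
      omega
    · omega
  obtain ⟨s, hs⟩ := h2
  obtain ⟨e, he⟩ := Int.eq_ofNat_of_zero_le (a := S.top s - S.len s - 1) (by omega)
  refine ⟨e, S.len s, S.b ⟨s, ⟨0, by omega⟩⟩, ?_, ?_, ?_⟩
  · have h3 := S.mem s ⟨0, by omega⟩
    rw [show S.top s - 2 * ((⟨0, by omega⟩ : Fin (S.len s + 1)) : ℕ) = (e : ℤ) + 1 + S.len s by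
      simp only [Nat.cast_zero]; omega] at h3
    exact h3
  · rw [string_pow S s (S.len s) (by omega)]
    exact S.b.ne_zero _
  · rw [pow_succ', Module.End.mul_apply, string_pow S s (S.len s) (by omega)]
    exact S.last s

/-- An adapted basis whose weights for `sl(2)` are the excesses. -/
lemma adp_centred {I : Type} [Fintype I] (hq : 1 < q) (hR : R.IsCoh q) {a : I → ℤ}
    (H : R.Adp q a a) : Centred (R.tot q) R.N := by
  classical
  obtain ⟨b, e, h, hs, hb⟩ := H
  have h1 : ∀ (r : ℤ) (x : R.V), x ∈ R.tot q r ↔ h x = (r : Ω) • x := by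
    intro r x
    rw [gr_eq_span (Coh.indep_tot hq hR) b a hb r]
    constructor
    · intro hx
      have h2 : Submodule.span Ω (b '' {i | a i = r}) ≤
          LinearMap.ker (h - (r : Ω) • (LinearMap.id : Module.End Ω R.V)) := by
        rw [Submodule.span_le]
        rintro _ ⟨i, hi, rfl⟩
        rw [SetLike.mem_coe, LinearMap.mem_ker, LinearMap.sub_apply, LinearMap.smul_apply,
          LinearMap.id_apply, hs.wt, show a i = r from hi, sub_self]
      have h3 := LinearMap.mem_ker.1 (h2 hx)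
      rw [LinearMap.sub_apply, LinearMap.smul_apply, LinearMap.id_apply, sub_eq_zero] at h3
      exact h3
    · intro hx
      rw [b.mem_span_image]
      intro i hi
      rw [Finset.mem_coe, Finsupp.mem_support_iff] at hi
      have h2 : h x = ∑ j, (b.repr x j * (a j : Ω)) • b j := by
        conv_lhs => rw [← b.sum_repr x]
        rw [map_sum]
        refine Finset.sum_congr rfl fun j _ => ?_
        rw [map_smul, hs.wt, smul_smul]
      have h3 : b.repr (h x) i = b.repr x i * (a i : Ω) := by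
        rw [h2, map_sum, Finsupp.finsetSum_apply, Finset.sum_eq_single i]
        · simp
        · intro j _ hj
          rw [map_smul, Finsupp.smul_apply, b.repr_self, Finsupp.single_apply, if_neg hj, smul_zero]
        · intro hi'
          exact absurd (Finset.mem_univ i) hi'
      rw [hx, map_smul, Finsupp.smul_apply, smul_eq_mul, mul_comm] at h3
      have h4 : (r : Ω) = (a i : Ω) := mul_left_cancel₀ hi h3
      have h5 : r = a i := by exact_mod_cast h4
      exact h5.symm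
  intro m
  obtain ⟨h2, h3⟩ := Pool.Agent.Y141.MW.stL Ω R.V R.N I b a e h hs m
  refine ⟨fun x hx h0 => h2 x ?_ h0, fun y hy => ?_⟩
  · have := (h1 _ _).1 hx
    simpa using this
  · obtain ⟨x, hx, hxy⟩ := h3 y (by have := (h1 _ _).1 hy; simpa using this)
    exact ⟨x, (h1 _ _).2 (by simpa using hx), hxy⟩

/-- The product of two pure cohomologies is pure. -/
lemma mw_kunneth (hq : 1 < q) (hR : R.IsCoh q) (hR' : R'.IsCoh q) (hR'' : R''.IsCoh q)
    {κ : R.V ⊗[Ω] R'.V ≃ₗ[Ω] R''.V} (hκ : IsKunneth R R' R'' κ) (h : ∀ m, R.MWPure q m)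
    (h' : ∀ m, R'.MWPure q m) : ∀ m, R''.MWPure q m := by
  obtain ⟨S⟩ := Coh.exists_strings hq hR
  obtain ⟨S'⟩ := Coh.exists_strings hq hR'
  rw [Coh.mw_iff hq hR S] at h
  rw [Coh.mw_iff hq hR' S'] at h'
  have e1 : S.ct = S.wt := by
    funext p
    unfold Strings.ct Strings.wt
    rw [h p.1]
  have e2 : S'.ct = S'.wt := by
    funext p
    unfold Strings.ct Strings.wt
    rw [h' p.1]
  have H := (Coh.adp_strings S).prod (Coh.adp_strings S') (by omega) hκ
  rw [e1, e2] at H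
  rw [← Coh.centred_tot_iff hq hR'']
  exact adp_centred hq hR'' H

/-- Potentially good reduction implies the monodromy-weight conjecture. -/
lemma IsPotGood.pure (hq : 1 < q) (hR : R.IsCoh q) (h : IsPotGood R q) : ∀ m, R.MWPure q m := by
  intro m
  rw [Coh.mwPure_iff hq hR]
  have h0 : ∀ c : ℤ, c ≠ 0 → R.exc q m c = ⊥ := by
    intro c hc
    rw [Submodule.eq_bot_iff]
    intro x hx
    by_contra hx0
    obtain ⟨α, z, hz, hz0, -, hF, hw⟩ := exists_eigen hq hR hx hx0 (h.zero x)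
    have := weil_unique hq hw (h.weil m α z ⟨hz, hz0, hF⟩)
    omega
  intro a
  rcases Nat.eq_zero_or_pos a with ha | ha
  · subst ha
    refine ⟨fun x _ hx => by simpa using hx, fun y hy => ⟨y, by simpa using hy, by simp⟩⟩
  · rw [h0 a (by omega), h0 (-(a : ℤ)) (by omega)]
    refine ⟨fun x hx _ => (Submodule.mem_bot Ω).1 hx, fun y hy => ⟨0, Submodule.zero_mem _, ?_⟩⟩
    rw [map_zero, (Submodule.mem_bot Ω).1 hy]

/-- Purity excludes poles to the right of the expected line. -/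
lemma no_invariants (hq : 1 < q) (hR : R.IsCoh q) (h : ∀ m, R.MWPure q m) {j n : ℕ}
    (hjn : j < 2 * n) {r : ℕ} (hr : 1 ≤ r) {x : R.V} (hx : x ∈ R.gr j) (hN : R.N x = 0)
    (hF : (R.F ^ r) x = (q : Ω) ^ (n * r) • x) : x = 0 := by
  have := hR.finite
  by_contra h0
  set S : Submodule Ω R.V := R.gr j ⊓ LinearMap.ker R.N ⊓
    LinearMap.ker (R.F ^ r - (q : Ω) ^ (n * r) • (LinearMap.id : Module.End Ω R.V)) with hS
  have hSF : ∀ x ∈ S, R.F x ∈ S := by
    intro x hx
    obtain ⟨h1, h2⟩ := Submodule.mem_inf.1 hx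
    obtain ⟨h1, h3⟩ := Submodule.mem_inf.1 h1
    refine Submodule.mem_inf.2 ⟨Submodule.mem_inf.2 ⟨hR.F_gr j x h1, ?_⟩, ?_⟩
    · rw [LinearMap.mem_ker] at h3 ⊢
      rw [hR.N_F, h3, map_zero, smul_zero]
    · rw [LinearMap.mem_ker, LinearMap.sub_apply, LinearMap.smul_apply, LinearMap.id_apply] at h2 ⊢
      rw [← Module.End.mul_apply, ← pow_succ, pow_succ', Module.End.mul_apply, ← map_smul,
        ← map_sub, h2, map_zero]
  have hxS : x ∈ S := by
    refine Submodule.mem_inf.2 ⟨Submodule.mem_inf.2 ⟨hx, LinearMap.mem_ker.2 hN⟩, ?_⟩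
    rw [LinearMap.mem_ker, LinearMap.sub_apply, LinearMap.smul_apply, LinearMap.id_apply, hF,
      sub_self]
  have hnt : Nontrivial S := ⟨⟨⟨x, hxS⟩, 0, fun h => h0 (congrArg Subtype.val h)⟩⟩
  obtain ⟨α, hα⟩ := Module.End.exists_eigenvalue (R.F.restrict hSF)
  obtain ⟨v, hv⟩ := hα.exists_hasEigenvector
  have hv1 : R.F v.1 = α • v.1 := congrArg Subtype.val hv.apply_eq_smul
  have hv0 : v.1 ≠ 0 := fun h => hv.2 (Subtype.ext h)
  obtain ⟨h1, h2⟩ := Submodule.mem_inf.1 v.2
  obtain ⟨h1, h3⟩ := Submodule.mem_inf.1 h1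
  have h4 : ∀ k : ℕ, (R.F ^ k) v.1 = α ^ k • v.1 := by
    intro k
    induction k with
    | zero => simp
    | succ k ih =>
      rw [pow_succ, Module.End.mul_apply, hv1, map_smul, ih, smul_smul, pow_succ, mul_comm]
  rw [LinearMap.mem_ker, LinearMap.sub_apply, LinearMap.smul_apply, LinearMap.id_apply, h4,
    ← sub_smul, smul_eq_zero] at h2
  have h5 : α ^ r = (q : Ω) ^ (n * r) := by
    rcases h2 with h2 | h2
    · exact sub_eq_zero.1 h2
    · exact absurd h2 hv0
  have h6 : IsWeilNumber q ((r : ℤ) * (2 * n)) (α ^ r) := by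
    rw [h5]
    have := weil_natPow (Ω := Ω) (by omega : 0 < q) (n * r)
    rwa [show 2 * ((n * r : ℕ) : ℤ) = (r : ℤ) * (2 * n) by push_cast; ring] at this
  have h7 := IsWeilNumber.of_pow (by omega) h6
  have h8 := mem_exc h1 hv1 h7
  obtain ⟨a, ha⟩ := Int.eq_ofNat_of_zero_le (a := 2 * (n : ℤ) - j) (by omega)
  have h9 := (Coh.mwPure_iff hq hR j).1 (h j) a
  refine hv0 (h9.1 v.1 (by rw [← ha]; exact h8) ?_)
  obtain ⟨a', rfl⟩ : ∃ a', a = a' + 1 := ⟨a - 1, by omega⟩
  rw [pow_succ, Module.End.mul_apply, LinearMap.mem_ker.1 h3, map_zero]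

end

end Pool.Agent.L7h94.MWC
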