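import Pool.Agent.L7h94.MWC.Defs

/-!
# Strings in tensor products
-/

set_option autoImplicit false

open Module TensorProduct

universe u v w

namespace Pool.Agent.L7h94.MWC

open Pool.Agent.H914 Pool.Agent.Y143 Pool.Agent.Y163.MW

section

variable {Ω : Type w} [Field Ω] [CharZero Ω] {R R' R'' : Coh.{v, w} Ω} {q : ℕ}

/-- There is a string of `s + 1` vectors for `N` whose weights have the mean `e` (relative to the
degree). -/
def HasString (R : Coh.{v, w} Ω) (q : ℕ) (e : ℤ) (s : ℕ) : Prop :=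
  ∃ x ∈ R.tot q (e + s), (R.N ^ s) x ≠ 0 ∧ (R.N ^ (s + 1)) x = 0

/-- The monodromy operator of a product. -/
def DD (R R' : Coh.{v, w} Ω) : Module.End Ω (R.V ⊗[Ω] R'.V) :=
  R.N.rTensor R'.V + R'.N.lTensor R.V

lemma N_kappa {κ : R.V ⊗[Ω] R'.V ≃ₗ[Ω] R''.V} (hκ : IsKunneth R R' R'' κ)
    (t : R.V ⊗[Ω] R'.V) : R''.N (κ t) = κ (DD R R' t) := by
  induction t using TensorProduct.induction_on with
  | zero => simp
  | tmul a b =>
    have h := hκ.monodromy a b
    unfold tm at h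
    rw [h, DD, LinearMap.add_apply, LinearMap.rTensor_tmul, LinearMap.lTensor_tmul, map_add]
  | add a b ha hb => rw [map_add, map_add, map_add, map_add, ha, hb]

lemma F_kappa {κ : R.V ⊗[Ω] R'.V ≃ₗ[Ω] R''.V} (hκ : IsKunneth R R' R'' κ) (x : R.V) (y : R'.V) :
    R''.F (κ (x ⊗ₜ y)) = κ (R.F x ⊗ₜ R'.F y) := hκ.frob x y

lemma N_pow_kappa {κ : R.V ⊗[Ω] R'.V ≃ₗ[Ω] R''.V} (hκ : IsKunneth R R' R'' κ) (n : ℕ)
    (t : R.V ⊗[Ω] R'.V) : (R''.N ^ n) (κ t) = κ ((DD R R' ^ n) t) := by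
  induction n generalizing t with
  | zero => simp
  | succ n ih => rw [pow_succ, Module.End.mul_apply, N_kappa hκ, ih, pow_succ, Module.End.mul_apply]

lemma DD_pow (R R' : Coh.{v, w} Ω) (n : ℕ) (x : R.V) (y : R'.V) :
    (DD R R' ^ n) (x ⊗ₜ y) =
      ∑ m ∈ Finset.range (n + 1), (n.choose m) • ((R.N ^ m) x ⊗ₜ[Ω] (R'.N ^ (n - m)) y) := by
  have hc : Commute (R.N.rTensor R'.V) (R'.N.lTensor R.V) := by
    ext a b
    simp
  rw [DD, hc.add_pow, LinearMap.sum_apply]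
  refine Finset.sum_congr rfl fun m _ => ?_
  rw [LinearMap.rTensor_pow, LinearMap.lTensor_pow, ← nsmul_eq_mul', LinearMap.smul_apply,
    Module.End.mul_apply, LinearMap.lTensor_tmul, LinearMap.rTensor_tmul]

lemma tmul_ne_zero {V V' : Type v} [AddCommGroup V] [Module Ω V] [AddCommGroup V'] [Module Ω V']
    {x : V} {y : V'} (hx : x ≠ 0) (hy : y ≠ 0) : x ⊗ₜ[Ω] y ≠ 0 := by
  intro h
  have h1 : ∃ f : Module.Dual Ω V, f x ≠ 0 := by
    by_contra hc
    push Not at hc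
    exact hx ((Module.forall_dual_apply_eq_zero_iff Ω x).1 hc)
  have h2 : ∃ g : Module.Dual Ω V', g y ≠ 0 := by
    by_contra hc
    push Not at hc
    exact hy ((Module.forall_dual_apply_eq_zero_iff Ω y).1 hc)
  obtain ⟨f, hf⟩ := h1
  obtain ⟨g, hg⟩ := h2
  have h3 := congrArg (fun t => TensorProduct.lid Ω Ω (TensorProduct.map f g t)) h
  simp only [TensorProduct.map_tmul, TensorProduct.lid_tmul, map_zero, smul_eq_mul] at h3
  exact (mul_ne_zero hf hg) h3

lemma pow_tot [IsAlgClosed Ω] (hq : 1 < q) (hR : R.IsCoh q) (n : ℕ) (c : ℤ) :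
    ∀ x ∈ R.tot q c, (R.N ^ n) x ∈ R.tot q (c - 2 * n) := by
  induction n generalizing c with
  | zero => intro x hx; simpa using hx
  | succ n ih =>
    intro x hx
    rw [pow_succ', Module.End.mul_apply]
    have := Coh.N_tot hq hR _ _ (ih c x hx)
    rwa [show c - 2 * (n : ℤ) - 2 = c - 2 * ((n + 1 : ℕ) : ℤ) by push_cast; ring] at this

lemma HasString.mul (hq : 0 < q) {κ : R.V ⊗[Ω] R'.V ≃ₗ[Ω] R''.V} (hκ : IsKunneth R R' R'' κ)
    {e e' : ℤ} {s s' : ℕ} (h : HasString R q e s) (h' : HasString R' q e' s') :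
    HasString R'' q (e + e') (s + s') := by
  obtain ⟨x, hx, hx1, hx2⟩ := h
  obtain ⟨y, hy, hy1, hy2⟩ := h'
  have hx3 : ∀ i, s < i → (R.N ^ i) x = 0 := by
    intro i hi
    obtain ⟨k, rfl⟩ := Nat.exists_eq_add_of_lt hi
    rw [show s + k + 1 = k + (s + 1) by ring, pow_add, Module.End.mul_apply, hx2, map_zero]
  have hy3 : ∀ i, s' < i → (R'.N ^ i) y = 0 := by
    intro i hi
    obtain ⟨k, rfl⟩ := Nat.exists_eq_add_of_lt hi
    rw [show s' + k + 1 = k + (s' + 1) by ring, pow_add, Module.End.mul_apply, hy2, map_zero]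
  refine ⟨κ (x ⊗ₜ y), ?_, ?_, ?_⟩
  · have := Coh.kunneth_tot hq hκ hx hy
    rwa [show e + (s : ℤ) + (e' + s') = e + e' + ((s + s' : ℕ) : ℤ) by push_cast; ring] at this
  · rw [N_pow_kappa hκ, DD_pow, Finset.sum_eq_single s]
    · rw [Nat.add_sub_cancel_left]
      intro h0
      have h1 := (map_eq_zero_iff κ κ.injective).1 h0
      rw [← Nat.cast_smul_eq_nsmul Ω] at h1
      rcases smul_eq_zero.1 h1 with h2 | h2
      · have : (s + s').choose s ≠ 0 := (Nat.choose_pos (Nat.le_add_right s s')).ne'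
        exact this (by exact_mod_cast h2)
      · exact tmul_ne_zero hx1 hy1 h2
    · intro i hi his
      rcases lt_or_gt_of_ne his with h | h
      · rw [hy3 (s + s' - i) (by omega), TensorProduct.tmul_zero, smul_zero]
      · rw [hx3 i h, TensorProduct.zero_tmul, smul_zero]
    · intro h
      exact absurd (Finset.mem_range.2 (by omega)) h
  · rw [N_pow_kappa hκ, DD_pow, Finset.sum_eq_zero, map_zero]
    intro i hi
    by_cases h : s < i
    · rw [hx3 i h, TensorProduct.zero_tmul, smul_zero]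
    · rw [hy3 (s + s' + 1 - i) (by omega), TensorProduct.tmul_zero, smul_zero]

/-- The operator on a product with a vector `y` with `N (N y) = 0`. -/
lemma DD_pow_two (n : ℕ) (x : R.V) {y : R'.V} (hy : R'.N (R'.N y) = 0) :
    (DD R R' ^ (n + 1)) (x ⊗ₜ y) = (R.N ^ (n + 1)) x ⊗ₜ[Ω] y +
      ((n : Ω) + 1) • ((R.N ^ n) x ⊗ₜ[Ω] R'.N y) := by
  induction n generalizing x with
  | zero =>
    simp only [zero_add, pow_one, pow_zero, Nat.cast_zero, one_smul, Module.End.one_apply]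
    rw [DD, LinearMap.add_apply, LinearMap.rTensor_tmul, LinearMap.lTensor_tmul]
  | succ n ih =>
    have h1 : DD R R' (x ⊗ₜ y) = R.N x ⊗ₜ[Ω] y + x ⊗ₜ[Ω] R'.N y := by
      rw [DD, LinearMap.add_apply, LinearMap.rTensor_tmul, LinearMap.lTensor_tmul]
    have h2 : ∀ k, ∀ z : R.V, (DD R R' ^ k) (z ⊗ₜ[Ω] R'.N y) = (R.N ^ k) z ⊗ₜ[Ω] R'.N y := by
      intro k
      induction k with
      | zero => intro z; simp
      | succ k ihk =>
        intro z
        rw [pow_succ, Module.End.mul_apply, DD, LinearMap.add_apply, LinearMap.rTensor_tmul,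
          LinearMap.lTensor_tmul, hy, TensorProduct.tmul_zero, add_zero, ← DD, ihk, pow_succ,
          Module.End.mul_apply]
    rw [pow_succ, Module.End.mul_apply, h1, map_add, ih, h2, pow_succ (R.N) (n + 1),
      Module.End.mul_apply, pow_succ (R.N) n, Module.End.mul_apply]
    push_cast
    module

lemma DD_pow_snd (n : ℕ) (x : R.V) {y : R'.V} (hy : R'.N y = 0) :
    (DD R R' ^ n) (x ⊗ₜ[Ω] y) = (R.N ^ n) x ⊗ₜ[Ω] y := by
  induction n generalizing x with
  | zero => simp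
  | succ n ih =>
    rw [pow_succ, Module.End.mul_apply, DD, LinearMap.add_apply, LinearMap.rTensor_tmul,
      LinearMap.lTensor_tmul, hy, TensorProduct.tmul_zero, add_zero, ← DD, ih, pow_succ,
      Module.End.mul_apply]

lemma HasString.down [IsAlgClosed Ω] (hq : 1 < q) (hR : R.IsCoh q) (hR' : R'.IsCoh q)
    {κ : R.V ⊗[Ω] R'.V ≃ₗ[Ω] R''.V} (hκ : IsKunneth R R' R'' κ) {u : R'.V}
    (hu : u ∈ R'.tot q 1) (hv : R'.N u ≠ 0) (hvv : R'.N (R'.N u) = 0) {e : ℤ} {s : ℕ}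
    (h : HasString R q e (s + 1)) : HasString R'' q e s := by
  obtain ⟨x, hx, hx1, hx2⟩ := h
  set t : R.V ⊗[Ω] R'.V := R.N x ⊗ₜ[Ω] u - ((s : Ω) + 1) • (x ⊗ₜ[Ω] R'.N u) with ht
  have hs : (DD R R' ^ s) t = (R.N ^ (s + 1)) x ⊗ₜ[Ω] u - (R.N ^ s) x ⊗ₜ[Ω] R'.N u := by
    rw [ht, map_sub, map_smul, DD_pow_snd s x hvv]
    rcases s with _ | n
    · simp
    · rw [DD_pow_two n (R.N x) hvv, ← Module.End.mul_apply, ← pow_succ, ← Module.End.mul_apply,
        ← pow_succ]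
      push_cast
      module
  refine ⟨κ t, ?_, ?_, ?_⟩
  · have h1 : R.N x ∈ R.tot q (e + (s + 1 : ℕ) - 2) := Coh.N_tot hq hR _ _ hx
    have h2 : R'.N u ∈ R'.tot q (1 - 2) := Coh.N_tot hq hR' _ _ hu
    have h3 := Coh.kunneth_tot (by omega) hκ h1 hu
    have h4 := Coh.kunneth_tot (by omega) hκ hx h2
    rw [show e + ((s + 1 : ℕ) : ℤ) - 2 + 1 = e + s by push_cast; ring] at h3
    rw [show e + ((s + 1 : ℕ) : ℤ) + (1 - 2) = e + s by push_cast; ring] at h4
    rw [ht, map_sub, map_smul]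
    exact Submodule.sub_mem _ h3 (Submodule.smul_mem _ _ h4)
  · rw [N_pow_kappa hκ, hs]
    intro h0
    have h1 := (map_eq_zero_iff κ κ.injective).1 h0
    have h2 := congrArg (R'.N.lTensor R.V) h1
    rw [map_sub, LinearMap.lTensor_tmul, LinearMap.lTensor_tmul, hvv, TensorProduct.tmul_zero,
      sub_zero, map_zero] at h2
    exact tmul_ne_zero hx1 hv h2
  · rw [N_pow_kappa hκ, pow_succ', Module.End.mul_apply, hs, map_sub, DD, LinearMap.add_apply,
      LinearMap.add_apply, LinearMap.rTensor_tmul, LinearMap.lTensor_tmul, LinearMap.rTensor_tmul,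
      LinearMap.lTensor_tmul, hvv, TensorProduct.tmul_zero, add_zero, ← Module.End.mul_apply,
      ← pow_succ', hx2, TensorProduct.zero_tmul, zero_add, ← Module.End.mul_apply (R.N),
      ← pow_succ', sub_self, map_zero]

/-- Eigenvectors are weight vectors. -/
lemma mem_exc {m : ℕ} {α : Ω} {x : R.V} (hx : x ∈ R.gr m) (hF : R.F x = α • x) {w : ℤ}
    (hw : IsWeilNumber q w α) : x ∈ R.exc q m (w - m) := by
  refine Submodule.mem_iSup_of_mem α (Submodule.mem_iSup_of_mem ?_ ?_)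
  · rwa [show (m : ℤ) + (w - m) = w by ring]
  · refine Submodule.mem_inf.2 ⟨hx, Pool.Agent.Y136.UB.mem_gen.2 ⟨1, ?_⟩⟩
    rw [pow_one, LinearMap.sub_apply, Module.algebraMap_end_apply, hF, sub_self]

/-- The homogeneous components of an element of the kernel. -/
lemma exists_homogeneous (hR : R.IsCoh q) {a : ℤ} {x : R.V} (hx : x ∈ R.tot q a) (h0 : x ≠ 0)
    (hN : R.N x = 0) : ∃ j, ∃ y ∈ R.exc q j a, y ≠ 0 ∧ R.N y = 0 := by
  classical
  have hind := hR.isInternal.submodule_iSupIndep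
  rw [iSupIndep_iff_finsetSum_eq_zero_imp_eq_zero] at hind
  obtain ⟨f, hf, hfx⟩ := (Submodule.mem_iSup_iff_exists_finsupp _ _).1 hx
  have h1 : ∑ j ∈ f.support, R.N (f j) = 0 := by
    rw [← map_sum, ← hN, ← hfx]
    rfl
  have h2 := hind f.support _ (fun j _ => hR.N_gr j _ (Coh.exc_le j a (hf j))) h1
  by_contra hcon
  push Not at hcon
  apply h0
  rw [← hfx]
  refine Finset.sum_eq_zero fun j hj => ?_
  by_contra h3
  exact hcon j (f j) (hf j) h3 (h2 j hj)

/-- A nonzero space of homogeneous weight vectors killed by `N` contains an eigenvector of `F`. -/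
lemma exists_eigen [IsAlgClosed Ω] (hq : 1 < q) (hR : R.IsCoh q) {j : ℕ} {a : ℤ} {y : R.V}
    (hy : y ∈ R.exc q j a) (h0 : y ≠ 0) (hN : R.N y = 0) :
    ∃ (α : Ω) (z : R.V), z ∈ R.gr j ∧ z ≠ 0 ∧ R.N z = 0 ∧ R.F z = α • z ∧
      IsWeilNumber q (j + a) α := by
  have := hR.finite
  have hq0 : (q : Ω) ≠ 0 := Nat.cast_ne_zero.2 (by omega)
  set S : Submodule Ω R.V := R.exc q j a ⊓ LinearMap.ker R.N with hS
  have hSF : ∀ x ∈ S, R.F x ∈ S := by
    intro x hx
    obtain ⟨h1, h2⟩ := Submodule.mem_inf.1 hx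
    refine Submodule.mem_inf.2 ⟨Coh.F_exc hR j a x h1, ?_⟩
    rw [LinearMap.mem_ker] at h2 ⊢
    rw [hR.N_F, h2, map_zero, smul_zero]
  have hnt : Nontrivial S := by
    refine ⟨⟨⟨y, Submodule.mem_inf.2 ⟨hy, LinearMap.mem_ker.2 hN⟩⟩, 0, fun h => h0 ?_⟩⟩
    exact congrArg Subtype.val h
  obtain ⟨α, hα⟩ := Module.End.exists_eigenvalue (R.F.restrict hSF)
  obtain ⟨v, hv⟩ := hα.exists_hasEigenvector
  have hv1 : R.F v.1 = α • v.1 := congrArg Subtype.val hv.apply_eq_smul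
  have hv0 : v.1 ≠ 0 := fun h => hv.2 (Subtype.ext h)
  obtain ⟨h1, h2⟩ := Submodule.mem_inf.1 v.2
  exact ⟨α, v.1, Coh.exc_le j a h1, hv0, LinearMap.mem_ker.1 h2, hv1,
    Coh.eigen_exc hq hR h1 hv0 hv1⟩

end

end Pool.Agent.L7h94.MWC
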